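import Pool.Agent.helper62.MS.SpecF
import Pool.Agent.helper80.EN.FNC

/-!
# MP_07c750_an, row ms:MU (the lift)
-/

set_option autoImplicit false

open scoped MatrixGroups ContDiff Topology UpperHalfPlane ComplexConjugate
open UpperHalfPlane MeasureTheory Filter Set

namespace Pool.Agent.MS

open Pool.Agent.RS
open Pool.Agent.EN (XG MG mkX mkM fl pr)

theorem MU_tend : Tendsto (fun x : ℝ => x - 2 * Real.sqrt x) atTop atTop := by
  have h2 := Real.tendsto_sqrt_atTop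
  have h1 : Tendsto (fun x : ℝ => Real.sqrt x * (Real.sqrt x + -2)) atTop atTop :=
    h2.atTop_mul_atTop₀ (tendsto_atTop_add_const_right _ (-2) h2)
  refine h1.congr' ?_
  filter_upwards [eventually_ge_atTop (0 : ℝ)] with x hx
  have := Real.mul_self_sqrt hx
  nlinarith

theorem MU_int {X : Type} [TopologicalSpace X] [MeasurableSpace X] [BorelSpace X] (f : ℝ → X → X)
    (hf : EN.FlowOn f) (τ : Measure X) (s t : ℝ) (V : X → ℝ) (hV : Continuous V) :
    ∫ x, V (f t x) ∂(τ.map (f s)) = ∫ x, V (f (t + s) x) ∂τ := by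
  have hfs : ∀ u, Continuous (f u) := fun u => hf.cont.comp (continuous_const.prodMk continuous_id)
  have hc2 : Continuous (fun x => V (f t x)) := hV.comp (hfs t)
  rw [integral_map (hfs s).aemeasurable hc2.aestronglyMeasurable]
  refine integral_congr_ae (Eventually.of_forall fun x => ?_)
  show V (f t (f s x)) = V (f (t + s) x)
  rw [hf.add]

theorem MU_bdd {X : Type} [TopologicalSpace X] [CompactSpace X] (V : X → ℝ) (hV : Continuous V) :
    ∃ m : ℝ, ∀ x, |V x| ≤ m := by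
  obtain ⟨m, hm⟩ := isCompact_univ.exists_bound_of_continuousOn hV.continuousOn
  exact ⟨m, fun x => by simpa using hm x (mem_univ x)⟩

theorem MU_proof (h1 : RHP_stmt) (h2 : NM3_stmt) (h3 : QW_stmt) (h4 : STB_stmt) (h5 : EN.LM1_stmt)
    (h6 : EN.XFL_stmt) (h7 : EN.XTX_stmt) (h8 : EN.XTM_stmt) (h9 : RS.CV1_stmt) : MU_stmt := by
  intro Γ F β α r φ ν hΓ hF hβ hα hr hφ hn hν hlim
  obtain ⟨xc, xt, xs⟩ := h7 Γ hΓ
  obtain ⟨mc, mt, msc⟩ := h8 Γ hΓ
  obtain ⟨hflow, hpr, hmkX, -, hsX, hmkM, homM, hsM, hfm, hpm, -, heqM⟩ := h6 Γ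
  have hα4 : BA (1 / 4) α := (h4.2.2.2.2.1 (1 / 8) (1 / 4) α (by norm_num)).2.1 hα
  have hc : TB (1 / 4) (pc β α) := (h9.2.2 (1 / 4) α β hα4.1 hβ.1).1
  have ca := QU.A_CA1 ℂ
  have hL : ∀ k, EigL Γ (1 / 4 + r k ^ 2) (φ k) := fun k =>
    ⟨ca.2.1 _ 2 ∞ (WithTop.coe_le_coe.2 le_top) (hφ k).1, (hφ k).2.1, (hφ k).2.2⟩
  have hI : ∀ k, InvC Γ (φ k) := fun k => ⟨(ca.1 _).1 (ca.2.1 _ 0 2 (by norm_num) (hL k).1), (hL k).2.1⟩
  obtain ⟨r0, hr0, hN⟩ := h2 Γ F α β hΓ hF hα4 hβ (1 / 2) (by norm_num)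
  have hq : ∀ k, r0 ≤ r k → 0 < qn F (pc β α) (r k) (φ k) := by
    intro k hk
    have h10 := (hN (r k) hk).2 (φ k) (hL k)
    rw [hn k, mul_one] at h10
    have h11 := (abs_le.1 h10).1
    have hrp : 0 < r k := by linarith
    by_contra hle
    push Not at hle
    have h12 : r k * qn F (pc β α) (r k) (φ k) ≤ 0 := mul_nonpos_of_nonneg_of_nonpos hrp.le hle
    linarith
  have hflc : ∀ u, Continuous (fl Γ u) := fun u => hflow.cont.comp (continuous_const.prodMk continuous_id)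
  classical
  obtain ⟨ρ, hρ1, hρ2⟩ : ∃ ρ : ℕ → Measure (XG Γ), (∀ k, r0 ≤ r k →
      ρ k = (rh Γ F (pc β α) (r k) (φ k)).map (fl Γ (Real.sqrt (Real.log (r k))))) ∧
      ∀ k, ¬ r0 ≤ r k → ρ k = Measure.dirac (mkX Γ 1) :=
    ⟨fun k => if r0 ≤ r k then (rh Γ F (pc β α) (r k) (φ k)).map (fl Γ (Real.sqrt (Real.log (r k))))
      else Measure.dirac (mkX Γ 1), fun k hk => if_pos hk, fun k hk => if_neg hk⟩
  have hρ : ∀ k, IsProbabilityMeasure (ρ k) := by
    intro k
    by_cases hk : r0 ≤ r k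
    · rw [hρ1 k hk]
      have := (h1 Γ F (pc β α) (r k) (φ k) hΓ hF hc (hI k) (hq k hk)).1
      exact Measure.isProbabilityMeasure_map (hflc _).aemeasurable
    · rw [hρ2 k hk]
      infer_instance
  have hs : Tendsto (fun k => Real.sqrt (Real.log (r k))) atTop atTop :=
    Real.tendsto_sqrt_atTop.comp (Real.tendsto_log_atTop.comp hr)
  have hL2 : Tendsto (fun k => Real.log (r k) - 2 * Real.sqrt (Real.log (r k))) atTop atTop :=
    MU_tend.comp (Real.tendsto_log_atTop.comp hr)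
  have hnk : Tendsto (fun k => ⌊Real.log (r k) - 2 * Real.sqrt (Real.log (r k))⌋₊) atTop atTop :=
    tendsto_nat_floor_atTop.comp hL2
  obtain ⟨μ, hμ, hinv, ha, -⟩ := h5 (XG Γ) (fl Γ) ρ
    (fun k => ⌊Real.log (r k) - 2 * Real.sqrt (Real.log (r k))⌋₊) hflow hρ hnk
  have hT : ∀ᶠ k in atTop, ∀ t : ℝ, 0 ≤ t →
      t ≤ ((⌊Real.log (r k) - 2 * Real.sqrt (Real.log (r k))⌋₊ : ℕ) : ℝ) →
      Real.sqrt (Real.log (r k)) ≤ t + Real.sqrt (Real.log (r k)) ∧
        t + Real.sqrt (Real.log (r k)) ≤ Real.log (r k) - Real.sqrt (Real.log (r k)) := by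
    filter_upwards [hL2.eventually_ge_atTop 0] with k hk t ht0 ht1
    have := Nat.floor_le hk
    constructor <;> linarith
  have hval : ∀ k, r0 ≤ r k → ∀ Ψ : XG Γ → ℝ, Continuous Ψ → ∀ t : ℝ,
      qn F (pc β α) (r k) (φ k) * ∫ x, Ψ (fl Γ t x) ∂(ρ k) =
        iR F (fun g => Ψ (mkX Γ (g * aM (t + Real.sqrt (Real.log (r k))))) * ‖pf β α (r k) (φ k) g‖ ^ 2) := by
    intro k hk Ψ hΨ t
    rw [hρ1 k hk, MU_int (fl Γ) hflow _ _ t Ψ hΨ]
    have hc2 : Continuous (fun x => Ψ (fl Γ (t + Real.sqrt (Real.log (r k))) x)) := hΨ.comp (hflc _)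
    rw [(h1 Γ F (pc β α) (r k) (φ k) hΓ hF hc (hI k) (hq k hk)).2 _ hc2.measurable (MU_bdd _ hc2)]
    simp only [hfm]
    rfl
  refine ⟨μ, hμ, hinv, ?_, ?_⟩
  · -- the mass of `ν`
    have hν1 : ν.real univ = 1 := by
      have e1 := hlim (fun _ => 1) continuous_const
      have e2 : (fun k => ∫ z in F, (fun _ : MG Γ => (1 : ℝ)) (mkM Γ z) * ‖φ k z‖ ^ 2) = fun _ => (1 : ℝ) := by
        funext k
        have e3 := hn k
        unfold nn at e3
        show (∫ z in F, (1 : ℝ) * ‖φ k z‖ ^ 2) = 1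
        simp only [one_mul]
        exact e3
      rw [e2] at e1
      have e4 := tendsto_nhds_unique e1 tendsto_const_nhds
      rw [integral_const, smul_eq_mul, mul_one] at e4
      exact e4
    have hνp : IsProbabilityMeasure ν := by
      refine ⟨?_⟩
      rw [measureReal_def] at hν1
      have := ENNReal.ofReal_toReal (measure_ne_top ν univ)
      rw [← this, hν1, ENNReal.ofReal_one]
    have hinvM : ∀ (V : MG Γ → ℝ), Continuous V → QU.Inv Γ (fun z => V (mkM Γ z)) := fun V hV =>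
      ⟨hV.comp hmkM, fun γ z => by
        have : mkM Γ (γ • z) = mkM Γ z := ((heqM z (γ • z)).2 ⟨γ, rfl⟩).symm
        exact congrArg V this⟩
    have hkey : ∀ V' : MG Γ → ℝ, Continuous V' → (∀ x, 0 ≤ V' x ∧ V' x ≤ 1) →
        QU.CD 2 (fun z => V' (mkM Γ z)) → ∫ x, V' (pr Γ x) ∂μ ≤ ∫ x, V' x ∂ν := by
      intro V' hV' h01 hCD
      refine le_of_forall_pos_le_add fun ε hε => ?_
      have hη0 : 0 < ε / 4 := by linarith
      obtain ⟨t0, K, r1, ht0, hK, hr1, hQ⟩ := h3 Γ F (fun z => V' (mkM Γ z)) hΓ hF (hinvM V' hV') hCD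
        (fun z => h01 _) β α hβ hα (ε / 4) hη0
      obtain ⟨r2, hr2, hN2⟩ := h2 Γ F α β hΓ hF hα4 hβ (ε / 4) hη0
      refine ha (fun x => V' (pr Γ x)) (∫ x, V' x ∂ν + ε) (hV'.comp hpr) ?_
      filter_upwards [hT, hr.eventually_ge_atTop r0, hr.eventually_ge_atTop r1, hr.eventually_ge_atTop r2,
        hs.eventually_ge_atTop t0, hs.eventually_ge_atTop (Real.log K),
        (hlim V' hV').eventually (gt_mem_nhds (show ∫ x, V' x ∂ν < ∫ x, V' x ∂ν + ε / 4 by linarith))]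
        with k hTk k0 k1 k2 k3 k4 k5 t ht ht1
      obtain ⟨t1, t2⟩ := hTk t ht ht1
      have hrk : 0 < r k := by linarith
      have e1 := hval k k0 (fun x => V' (pr Γ x)) (hV'.comp hpr) t
      simp only [hpm] at e1
      have hexp : Real.exp (t + Real.sqrt (Real.log (r k))) ≤ r k / K := by
        have e5 : Real.exp (Real.log (r k) - Real.log K) = r k / K := by
          rw [Real.exp_sub, Real.exp_log hrk, Real.exp_log hK]
        rw [← e5]
        exact Real.exp_le_exp.2 (by linarith)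
      have e3 := hQ (r k) (φ k) k1 (hL k) (t + Real.sqrt (Real.log (r k))) (by linarith) hexp
      have e4 := (hN2 (r k) k2).2 (φ k) (hL k)
      rw [hn k, mul_one] at e4 e3
      have e6 := (abs_le.1 e4).1
      have hJ0 : 0 ≤ ∫ x, V' (pr Γ (fl Γ t x)) ∂(ρ k) := integral_nonneg fun x => (h01 _).1
      have hJ1 : ∫ x, V' (pr Γ (fl Γ t x)) ∂(ρ k) ≤ 1 := by
        have := hρ k
        have e7 : ∫ x, V' (pr Γ (fl Γ t x)) ∂(ρ k) ≤ ∫ _x, (1 : ℝ) ∂(ρ k) :=
          integral_mono (EN.FNC_int (ρ k) _ ((hV'.comp hpr).comp (hflc t)) fun x => h01 _)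
            (integrable_const _) fun x => (h01 _).2
        rwa [integral_const, probReal_univ, one_smul] at e7
      generalize (∫ x, V' (pr Γ (fl Γ t x)) ∂(ρ k)) = J at e1 hJ0 hJ1 ⊢
      rw [← e1, ← mul_assoc] at e3
      have e8 : (1 - ε / 4) * J ≤ r k * qn F (pc β α) (r k) (φ k) * J :=
        mul_le_mul_of_nonneg_right (by linarith) hJ0
      have e9 : ε / 4 * J ≤ ε / 4 * 1 := mul_le_mul_of_nonneg_left hJ1 hη0.le
      have e10 : (1 - ε / 4) * J = J - ε / 4 * J := by ring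
      linarith
    refine EN.FNC_map μ ν (pr Γ) hpr fun V hVc h01 => ?_
    refine le_of_forall_pos_le_add fun ε hε => ?_
    obtain ⟨h', hi, hCD, happ, h01'⟩ := RS.ESM Γ (fun z => V (mkM Γ z)) 0 1 (ε / 2) hΓ
      (hinvM V hVc) (fun z => h01 _) (by linarith)
    have hlift : ∀ a b : ℍ, (MulAction.orbitRel Γ ℍ) a b → h' a = h' b := by
      rintro a b ⟨γ, hγ⟩
      have hγ' : γ • b = a := hγ
      rw [← hγ', hi.2 γ b]
    obtain ⟨V', hV'⟩ : ∃ V' : MG Γ → ℝ, V' = Quotient.lift h' hlift := ⟨_, rfl⟩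
    have hV'c : Continuous V' := by rw [hV']; exact hi.1.quotient_lift hlift
    have hV'm : ∀ z, V' (mkM Γ z) = h' z := fun z => by rw [hV']; rfl
    have hV'01 : ∀ x, 0 ≤ V' x ∧ V' x ≤ 1 := by
      intro x
      obtain ⟨z, rfl⟩ := hsM x
      rw [hV'm]
      exact h01' z
    have hV'a : ∀ x, |V' x - V x| ≤ ε / 2 := by
      intro x
      obtain ⟨z, rfl⟩ := hsM x
      rw [hV'm]
      exact happ z
    have hCD' : QU.CD 2 (fun z => V' (mkM Γ z)) := by
      have e1 : (fun z => V' (mkM Γ z)) = h' := funext hV'm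
      rw [e1]
      exact hCD
    have k1 := hkey V' hV'c hV'01 hCD'
    have i1 : Integrable (fun x => V (pr Γ x)) μ := EN.FNC_int μ _ (hVc.comp hpr) fun x => h01 _
    have i2 : Integrable (fun x => V' (pr Γ x)) μ := EN.FNC_int μ _ (hV'c.comp hpr) fun x => hV'01 _
    have i3 : Integrable V ν := EN.FNC_int ν _ hVc h01
    have i4 : Integrable V' ν := EN.FNC_int ν _ hV'c hV'01
    have k2 : ∫ x, V (pr Γ x) ∂μ ≤ ∫ x, V' (pr Γ x) ∂μ + ε / 2 := by
      have e1 : ∫ x, (V' (pr Γ x) + ε / 2) ∂μ = ∫ x, V' (pr Γ x) ∂μ + ε / 2 := by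
        rw [integral_add i2 (integrable_const _), integral_const, probReal_univ, one_smul]
      rw [← e1]
      refine integral_mono i1 (i2.add (integrable_const _)) fun x => ?_
      have := (abs_le.1 (hV'a (pr Γ x))).1
      show V (pr Γ x) ≤ V' (pr Γ x) + ε / 2
      linarith
    have k3 : ∫ x, V' x ∂ν ≤ ∫ x, V x ∂ν + ε / 2 := by
      have e1 : ∫ x, (V x + ε / 2) ∂ν = ∫ x, V x ∂ν + ε / 2 := by
        rw [integral_add i3 (integrable_const _), integral_const, probReal_univ, one_smul]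
      rw [← e1]
      refine integral_mono i4 (i3.add (integrable_const _)) fun x => ?_
      have := (abs_le.1 (hV'a x)).2
      show V' x ≤ V x + ε / 2
      linarith
    linarith
  · intro Ψ b hΨ hb
    by_contra hne
    rw [not_frequently] at hne
    have h10 : ∫ x, Ψ x ∂μ ≤ b := by
      refine ha Ψ b hΨ ?_
      filter_upwards [hT, hr.eventually_ge_atTop r0, hne] with k hTk k0 k1 t ht ht1
      obtain ⟨t1, t2⟩ := hTk t ht ht1
      have e1 := hval k k0 Ψ hΨ t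
      push Not at k1
      have e2 := k1 (t + Real.sqrt (Real.log (r k))) t1 t2
      rw [← e1, mul_comm b] at e2
      exact le_of_mul_le_mul_left e2 (hq k k0)
    linarith

end Pool.Agent.MS
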